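import Pool.Agent.Helper99.RS.LemA
import Pool.Agent.Helper83.RS.Main

/-!
# RS: rotations of order four

`no_free_four`: a piece whose four images under the quarter turns are pairwise disjoint does not exist if the Morse index is at most
four: `∑ (-1) ^ j BB C_j (zz k) = 0` for `zz = 1, y_0, y_1, y_2`.
-/

set_option autoImplicit false

open MeasureTheory Filter
open scoped ContDiff Topology

namespace Pool.Agent.Helper99.RS

open Pool.Agent.Helper78.FB

variable {F φ f g : E → ℝ} {C C' : Set E}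

private noncomputable def ee : Fin 3 → ℝ := ![-1, 1, 1]

private theorem ee_sq (i : Fin 3) : ee i * ee i = 1 := by
  fin_cases i
  · show (-1 : ℝ) * -1 = 1
    norm_num
  · show (1 : ℝ) * 1 = 1
    norm_num
  · show (1 : ℝ) * 1 = 1
    norm_num

private theorem rot_q (y : E) : rot (2 * Real.pi / (4 : ℕ)) y = TS.sp (Equiv.swap 0 1) ee y := by
  have e : 2 * Real.pi / ((4 : ℕ) : ℝ) = Real.pi / 2 := by
    push_cast
    ring
  rw [e]
  ext i
  fin_cases i
  · show Real.cos (Real.pi / 2) * y 0 - Real.sin (Real.pi / 2) * y 1 = (-1) * y (Equiv.swap (0 : Fin 3) 1 0)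
    rw [Real.cos_pi_div_two, Real.sin_pi_div_two, Equiv.swap_apply_left]
    ring
  · show Real.sin (Real.pi / 2) * y 0 + Real.cos (Real.pi / 2) * y 1 = 1 * y (Equiv.swap (0 : Fin 3) 1 1)
    rw [Real.cos_pi_div_two, Real.sin_pi_div_two, Equiv.swap_apply_right]
    ring
  · show y 2 = 1 * y (Equiv.swap (0 : Fin 3) 1 2)
    rw [Equiv.swap_apply_of_ne_of_ne (by decide) (by decide)]
    ring

theorem bb_q (hs : ContDiff ℝ ∞ F) (hF : ∀ y, F (rot (2 * Real.pi / (4 : ℕ)) y) = F y)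
    (hφ : ∀ y, φ (rot (2 * Real.pi / (4 : ℕ)) y) = φ y) (hC : ∀ y, rot (2 * Real.pi / (4 : ℕ)) y ∈ C' ↔ y ∈ C) {s : ℝ}
    (hl : ∀ y, lap F f y = 0) (hl' : ∀ y, lap F g y = 0) (hfg : ∀ y, f (rot (2 * Real.pi / (4 : ℕ)) y) = s * g y)
    (hnd : ∀ y, nd f (rot (2 * Real.pi / (4 : ℕ)) y) = s * nd g y) : BB F φ C' f = s * BB F φ C g := by
  have hF' : ∀ y, F (TS.sp (Equiv.swap 0 1) ee y) = F y := fun y => by rw [← rot_q, hF]
  have hind : ∀ y, ind C' (rot (2 * Real.pi / (4 : ℕ)) y) = ind C y := by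
    intro y
    by_cases hy : y ∈ C
    · rw [ind_mem hy, ind_mem ((hC y).2 hy)]
    · rw [ind_not hy, ind_not fun hy' => hy ((hC y).1 hy')]
  have h1 := TS.area_sp ee_sq hF' (fun y => ind C' y * φ y * (lap F f y + normA F y * f y))
  have h2 := TS.len_sp ee_sq hF' (fun y => ind C' y * φ y * (nd f y - f y))
  have e1 : (fun y => ind C' (TS.sp (Equiv.swap 0 1) ee y) * φ (TS.sp (Equiv.swap 0 1) ee y) *
      (lap F f (TS.sp (Equiv.swap 0 1) ee y) + normA F (TS.sp (Equiv.swap 0 1) ee y) * f (TS.sp (Equiv.swap 0 1) ee y))) =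
      fun y => s * (ind C y * φ y * (lap F g y + normA F y * g y)) := by
    funext y
    rw [TS.normA_sp ee_sq hs hF' y, ← rot_q, hind, hφ, hl, hl', hfg]
    ring
  have e2 : (fun y => ind C' (TS.sp (Equiv.swap 0 1) ee y) * φ (TS.sp (Equiv.swap 0 1) ee y) *
      (nd f (TS.sp (Equiv.swap 0 1) ee y) - f (TS.sp (Equiv.swap 0 1) ee y))) =
      fun y => s * (ind C y * φ y * (nd g y - g y)) := by
    funext y
    rw [← rot_q, hind, hφ, hfg, hnd]
    ring
  have h1' : area F (fun y => s * (ind C y * φ y * (lap F g y + normA F y * g y))) =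
      area F (fun y => ind C' y * φ y * (lap F f y + normA F y * f y)) := by
    rw [← e1]
    exact h1
  have h2' : len F (fun y => s * (ind C y * φ y * (nd g y - g y))) =
      len F (fun y => ind C' y * φ y * (nd f y - f y)) := by
    rw [← e2]
    exact h2
  rw [area_const_mul] at h1'
  rw [len_const_mul] at h2'
  unfold BB
  rw [← h1', ← h2']
  ring

private theorem nd_one (y : E) : nd (fun _ : E => (1 : ℝ)) y = 0 := by
  simp only [nd, pd_const, mul_zero, Finset.sum_const_zero]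

private theorem lap_one (y : E) : lap F (fun _ : E => (1 : ℝ)) y = 0 := by
  simp only [lap, pd_const, mul_zero, Finset.sum_const_zero, sub_zero]

private theorem r0 (y : E) : rot (2 * Real.pi / (4 : ℕ)) y 0 = (-1) * y 1 := by
  rw [rot_q]
  show (-1) * y (Equiv.swap (0 : Fin 3) 1 0) = (-1) * y 1
  rw [Equiv.swap_apply_left]

private theorem r1 (y : E) : rot (2 * Real.pi / (4 : ℕ)) y 1 = 1 * y 0 := by
  rw [rot_q]
  show 1 * y (Equiv.swap (0 : Fin 3) 1 1) = 1 * y 0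
  rw [Equiv.swap_apply_right]

theorem no_free_four (h : FBMS F) (hconn : IsPreconnected (inn F)) (hflat : ∃ y ∈ surf F, normA F y ≠ 0)
    (hindex : IndexLeFour F) (N : Null F φ) (hreg : RegStat F φ) (hlc : LcNodal F φ)
    (hF : ∀ y, F (rot (2 * Real.pi / (4 : ℕ)) y) = F y) (hφ : ∀ y, φ (rot (2 * Real.pi / (4 : ℕ)) y) = φ y)
    (C : Fin 4 → Set E) (hP : ∀ i, Piece F φ (C i)) (hd : ∀ i j, i ≠ j → Disjoint (C i) (C j))
    (hne : ∀ i, (C i).Nonempty) (h01 : ∀ y, rot (2 * Real.pi / (4 : ℕ)) y ∈ C 1 ↔ y ∈ C 0)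
    (h12 : ∀ y, rot (2 * Real.pi / (4 : ℕ)) y ∈ C 2 ↔ y ∈ C 1)
    (h23 : ∀ y, rot (2 * Real.pi / (4 : ℕ)) y ∈ C 3 ↔ y ∈ C 2) : False := by
  have hs := h.smooth
  have a0 : ∀ {A B : Set E}, (∀ y, rot (2 * Real.pi / (4 : ℕ)) y ∈ B ↔ y ∈ A) →
      BB F φ B (zz 0) = 1 * BB F φ A (zz 0) := fun hAB =>
    bb_q hs hF hφ hAB lap_one lap_one (fun y => (one_mul (1 : ℝ)).symm) fun y => by
      show nd (fun _ : E => (1 : ℝ)) _ = 1 * nd (fun _ : E => (1 : ℝ)) y
      rw [nd_one, nd_one, mul_zero]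
  have a1 : ∀ {A B : Set E}, (∀ y, rot (2 * Real.pi / (4 : ℕ)) y ∈ B ↔ y ∈ A) →
      BB F φ B (zz 1) = (-1) * BB F φ A (zz 2) := fun hAB =>
    bb_q hs hF hφ hAB (lap_coord 0) (lap_coord 1) (fun y => r0 y) fun y => by
      show nd (fun y : E => y 0) _ = (-1) * nd (fun y : E => y 1) y
      rw [nd_coord, nd_coord]
      exact r0 y
  have a2 : ∀ {A B : Set E}, (∀ y, rot (2 * Real.pi / (4 : ℕ)) y ∈ B ↔ y ∈ A) →
      BB F φ B (zz 2) = 1 * BB F φ A (zz 1) := fun hAB =>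
    bb_q hs hF hφ hAB (lap_coord 1) (lap_coord 0) (fun y => r1 y) fun y => by
      show nd (fun y : E => y 1) _ = 1 * nd (fun y : E => y 0) y
      rw [nd_coord, nd_coord]
      exact r1 y
  have a3 : ∀ {A B : Set E}, (∀ y, rot (2 * Real.pi / (4 : ℕ)) y ∈ B ↔ y ∈ A) →
      BB F φ B (zz 3) = 1 * BB F φ A (zz 3) := fun hAB =>
    bb_q hs hF hφ hAB (lap_coord 2) (lap_coord 2) (fun y => (one_mul (y 2)).symm) fun y => by
      show nd (fun y : E => y 2) _ = 1 * nd (fun y : E => y 2) y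
      rw [nd_coord, nd_coord, one_mul]
      rfl
  have hc0 : (![1, -1, 1, -1] : Fin 4 → ℝ) = 0 := by
    refine c_zero h hconn hflat hindex N hreg hlc C hP hd hne (by norm_num) ![1, -1, 1, -1] fun k => ?_
    rw [Fin.sum_univ_four]
    show 1 * BB F φ (C 0) (zz k) + (-1) * BB F φ (C 1) (zz k) + 1 * BB F φ (C 2) (zz k) + (-1) * BB F φ (C 3) (zz k) = 0
    have hk : k = 0 ∨ k = 1 ∨ k = 2 ∨ k = 3 := by
      fin_cases k <;> decide
    rcases hk with rfl | rfl | rfl | rfl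
    · rw [a0 h23, a0 h12, a0 h01]
      ring
    · rw [a1 h23, a2 h12, a1 h12, a1 h01, a2 h01]
      ring
    · rw [a2 h23, a1 h12, a2 h12, a2 h01, a1 h01]
      ring
    · rw [a3 h23, a3 h12, a3 h01]
      ring
  have := congrFun hc0 0
  norm_num at this

/-- No four disjoint components which are permuted by the quarter turns. -/
def NoFree (F φ : E → ℝ) : Prop :=
  (∀ y, F (rot (2 * Real.pi / (4 : ℕ)) y) = F y) → (∀ y, φ (rot (2 * Real.pi / (4 : ℕ)) y) = φ y) →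
    ∀ C : Fin 4 → Set E, (∀ i, Piece F φ (C i)) → (∀ i j, i ≠ j → Disjoint (C i) (C j)) → (∀ i, (C i).Nonempty) →
      (∀ y, rot (2 * Real.pi / (4 : ℕ)) y ∈ C 1 ↔ y ∈ C 0) → (∀ y, rot (2 * Real.pi / (4 : ℕ)) y ∈ C 2 ↔ y ∈ C 1) →
      (∀ y, rot (2 * Real.pi / (4 : ℕ)) y ∈ C 3 ↔ y ∈ C 2) → False

theorem mem_comp_rot {t : ℝ} (hF : ∀ y, F (rot t y) = F y) (hφ : ∀ y, φ (rot t y) = φ y) {x y : E} :
    rot t x ∈ comp F φ (rot t y) ↔ x ∈ comp F φ y := by
  constructor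
  · intro hx
    have h1 := joinedIn_rot (t := -t) (fun z => inv_neg hF z) (fun z => inv_neg hφ z) hx
    rw [rot_neg_rot, rot_neg_rot] at h1
    exact h1
  · exact fun hx => joinedIn_rot hF hφ hx

/-- If two of the images of a component meet, a rotation maps the component to itself. -/
theorem stab_of_meet {n : ℕ} (hF : ∀ y, F (rot (2 * Real.pi / n) y) = F y)
    (hφ : ∀ y, φ (rot (2 * Real.pi / n) y) = φ y) {y : E} (hy : y ∈ posS F φ) {a b : ℕ} (hab : a < b) (hbn : b < n)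
    (hne : ¬ Disjoint (comp F φ (rot ((a : ℤ) * (2 * Real.pi / n)) y)) (comp F φ (rot ((b : ℤ) * (2 * Real.pi / n)) y))) :
    ∃ j : ℕ, 0 < j ∧ j < n ∧ ∀ x ∈ comp F φ y, rot (2 * Real.pi * j / n) x ∈ comp F φ y := by
  have hF' : ∀ (k : ℤ) (y : E), F (rot (k * (2 * Real.pi / n)) y) = F y := fun k y => inv_mul hF k y
  have hφ' : ∀ (k : ℤ) (y : E), φ (rot (k * (2 * Real.pi / n)) y) = φ y := fun k y => inv_mul hφ k y
  have hmem : ∀ k : ℤ, rot (k * (2 * Real.pi / n)) y ∈ posS F φ := fun k =>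
    (posS_rot (hF' k) (hφ' k)).2 hy
  have heq : comp F φ (rot ((a : ℤ) * (2 * Real.pi / n)) y) = comp F φ (rot ((b : ℤ) * (2 * Real.pi / n)) y) := by
    by_contra hc
    exact hne (comp_disjoint hc)
  have h1 : JoinedIn (posS F φ) (rot ((a : ℤ) * (2 * Real.pi / n)) y) (rot ((b : ℤ) * (2 * Real.pi / n)) y) := by
    show rot ((b : ℤ) * (2 * Real.pi / n)) y ∈ comp F φ (rot ((a : ℤ) * (2 * Real.pi / n)) y)
    rw [heq]
    exact mem_comp_self (hmem _)
  have h2 := joinedIn_rot (hF' (-(a : ℤ))) (hφ' (-(a : ℤ))) h1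
  rw [← rot_add, ← rot_add] at h2
  have e1 : ((-(a : ℤ) : ℤ) : ℝ) * (2 * Real.pi / n) + ((a : ℤ) : ℝ) * (2 * Real.pi / n) = 0 := by
    push_cast
    ring
  have e2 : ((-(a : ℤ) : ℤ) : ℝ) * (2 * Real.pi / n) + ((b : ℤ) : ℝ) * (2 * Real.pi / n) =
      2 * Real.pi * ((b - a : ℕ) : ℝ) / n := by
    rw [Nat.cast_sub hab.le]
    push_cast
    ring
  rw [e1, e2, rot_id] at h2
  refine ⟨b - a, by omega, by omega, fun x hx => ?_⟩
  have e3 : 2 * Real.pi * ((b - a : ℕ) : ℝ) / n = (((b - a : ℕ) : ℤ) : ℝ) * (2 * Real.pi / n) := by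
    push_cast
    ring
  have h3 : JoinedIn (posS F φ) (rot (2 * Real.pi * ((b - a : ℕ) : ℝ) / n) y)
      (rot (2 * Real.pi * ((b - a : ℕ) : ℝ) / n) x) := by
    rw [e3]
    exact joinedIn_rot (hF' _) (hφ' _) hx
  exact JoinedIn.trans h2 h3

theorem exists_stab4 (hlc : LCon F) (hφc : Continuous φ) (h5 : NoFive F φ) (h4 : NoFree F φ) {n : ℕ} (hn : 4 ≤ n)
    (hF : ∀ y, F (rot (2 * Real.pi / n) y) = F y) (hφ : ∀ y, φ (rot (2 * Real.pi / n) y) = φ y) {y : E}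
    (hy : y ∈ posS F φ) :
    ∃ j : ℕ, 0 < j ∧ j < n ∧ ∀ x ∈ comp F φ y, rot (2 * Real.pi * j / n) x ∈ comp F φ y := by
  rcases Nat.lt_or_ge 4 n with h | h
  · exact exists_stab hlc hφc h5 h hF hφ hy
  have hn4 : n = 4 := le_antisymm h hn
  subst hn4
  by_contra hcon
  have hF' : ∀ (k : ℤ) (y : E), F (rot (k * (2 * Real.pi / (4 : ℕ))) y) = F y := fun k y => inv_mul hF k y
  have hφ' : ∀ (k : ℤ) (y : E), φ (rot (k * (2 * Real.pi / (4 : ℕ))) y) = φ y := fun k y => inv_mul hφ k y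
  have hmem : ∀ k : ℤ, rot (k * (2 * Real.pi / (4 : ℕ))) y ∈ posS F φ := fun k =>
    (posS_rot (hF' k) (hφ' k)).2 hy
  have hdis : ∀ a b : ℕ, a < b → b < 4 → Disjoint (comp F φ (rot ((a : ℤ) * (2 * Real.pi / (4 : ℕ))) y))
      (comp F φ (rot ((b : ℤ) * (2 * Real.pi / (4 : ℕ))) y)) := by
    intro a b hab hb
    by_contra hc
    exact hcon (stab_of_meet hF hφ hy hab hb hc)
  have hstep : ∀ (a : ℤ) (x : E), rot (2 * Real.pi / (4 : ℕ)) x ∈ comp F φ (rot (((a + 1 : ℤ) : ℝ) * (2 * Real.pi / (4 : ℕ))) y) ↔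
      x ∈ comp F φ (rot ((a : ℤ) * (2 * Real.pi / (4 : ℕ))) y) := by
    intro a x
    have e : rot (((a + 1 : ℤ) : ℝ) * (2 * Real.pi / (4 : ℕ))) y =
        rot (2 * Real.pi / (4 : ℕ)) (rot ((a : ℤ) * (2 * Real.pi / (4 : ℕ))) y) := by
      rw [← rot_add]
      congr 1
      push_cast
      ring
    rw [e]
    exact mem_comp_rot hF hφ
  refine h4 hF hφ (fun i => comp F φ (rot (((i : ℕ) : ℤ) * (2 * Real.pi / (4 : ℕ))) y))
    (fun i => piece_comp hlc hφc _) (fun i j hij => ?_) (fun i => ⟨_, mem_comp_self (hmem _)⟩)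
    (hstep 0) (hstep 1) (hstep 2)
  rcases lt_or_gt_of_ne hij with h1 | h1
  · exact hdis i j h1 j.2
  · exact (hdis j i h1 i.2).symm

end Pool.Agent.Helper99.RS
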