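import Pool.Agent.Helper99.RS.UDefs
import Pool.Agent.Helper94.RS.North

/-!
# RS, U1: integration by parts on a cell

The surface is cut off at `ρ = φ ^ 2 + |∇ φ| ^ 2 = d`, by `κ(ρ / d)`: the error is `κ'(ρ / d) / d * f * ⟨∇ρ, ∇g⟩`, and
`|f| |∇ g| ≤ C ρ`, so it is bounded, and it vanishes for small `d` at every point of the cell.
-/

set_option autoImplicit false

open MeasureTheory Filter
open scoped ContDiff Topology Manifold

namespace Pool.Agent.Helper99.RS

open Pool.Agent.Helper78.FB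

variable {F φ : E → ℝ}

private theorem st_diff (x : ℝ) : HasDerivAt Real.smoothTransition (deriv Real.smoothTransition x) x :=
  ((Real.smoothTransition.contDiff (n := 1)).differentiable (by simp) x).hasDerivAt

private theorem st_deriv_of_gt {x : ℝ} (hx : 1 < x) : deriv Real.smoothTransition x = 0 := by
  have h1 : Real.smoothTransition =ᶠ[𝓝 x] fun _ => (1 : ℝ) := by
    filter_upwards [lt_mem_nhds hx] with t ht
    exact Real.smoothTransition.one_of_one_le ht.le
  rw [h1.deriv_eq, deriv_const]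

private theorem st_deriv_of_lt {x : ℝ} (hx : x < 0) : deriv Real.smoothTransition x = 0 := by
  have h1 : Real.smoothTransition =ᶠ[𝓝 x] fun _ => (0 : ℝ) := by
    filter_upwards [gt_mem_nhds hx] with t ht
    exact Real.smoothTransition.zero_of_nonpos ht.le
  rw [h1.deriv_eq, deriv_const]

private theorem st_deriv_bound : ∃ M : ℝ, 0 ≤ M ∧ ∀ x, |deriv Real.smoothTransition x| ≤ M := by
  have hc : Continuous (deriv Real.smoothTransition) :=
    (Real.smoothTransition.contDiff (n := 1)).continuous_deriv le_rfl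
  obtain ⟨M, hM⟩ := (isCompact_Icc (a := (0 : ℝ)) (b := 1)).exists_bound_of_continuousOn hc.continuousOn
  refine ⟨max M 0, le_max_right _ _, fun x => ?_⟩
  by_cases h0 : x < 0
  · rw [st_deriv_of_lt h0, abs_zero]; exact le_max_right _ _
  by_cases h1 : 1 < x
  · rw [st_deriv_of_gt h1, abs_zero]; exact le_max_right _ _
  · exact (hM x ⟨not_lt.1 h0, not_lt.1 h1⟩).trans (le_max_left _ _)

/-- the cut-off function -/
private noncomputable def ka (d s : ℝ) : ℝ := Real.smoothTransition (s / d - 1)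

private theorem ka_smooth (d : ℝ) : ContDiff ℝ ∞ (ka d) :=
  Real.smoothTransition.contDiff.comp ((contDiff_id.div_const d).sub contDiff_const)

private theorem ka_abs (d s : ℝ) : |ka d s| ≤ 1 := by
  rw [ka, abs_of_nonneg (Real.smoothTransition.nonneg _)]
  exact Real.smoothTransition.le_one _

private theorem ka_zero {d s : ℝ} (hd : 0 < d) (hs : s ≤ d) : ka d s = 0 := by
  refine Real.smoothTransition.zero_of_nonpos ?_
  have : s / d ≤ 1 := (div_le_one hd).2 hs
  linarith

private theorem ka_one {d s : ℝ} (hd : 0 < d) (hs : 2 * d ≤ s) : ka d s = 1 := by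
  refine Real.smoothTransition.one_of_one_le ?_
  have : 2 ≤ s / d := (le_div_iff₀ hd).2 hs
  linarith

private theorem ka_deriv (d s : ℝ) : deriv (ka d) s = deriv Real.smoothTransition (s / d - 1) * (1 / d) := by
  have h1 : HasDerivAt (fun s : ℝ => s / d - 1) (1 / d) s := ((hasDerivAt_id s).div_const d).sub_const 1
  exact (HasDerivAt.comp s (st_diff (s / d - 1)) h1).deriv

private theorem ka_deriv_zero {d s : ℝ} (hd : 0 < d) (hs : 2 * d < s) : deriv (ka d) s = 0 := by
  rw [ka_deriv, st_deriv_of_gt, zero_mul]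
  have : 2 < s / d := (lt_div_iff₀ hd).2 hs
  linarith

private theorem ka_deriv_mul {M : ℝ} (hM0 : 0 ≤ M) (hM : ∀ x, |deriv Real.smoothTransition x| ≤ M) {d s : ℝ} (hd : 0 < d)
    (hs : 0 ≤ s) : |deriv (ka d) s| * s ≤ 2 * M := by
  by_cases h1 : 2 * d < s
  · rw [ka_deriv_zero hd h1, abs_zero, zero_mul]
    positivity
  · push Not at h1
    rw [ka_deriv, abs_mul, abs_of_pos (one_div_pos.2 hd)]
    calc |deriv Real.smoothTransition (s / d - 1)| * (1 / d) * s ≤ M * (1 / d) * (2 * d) := by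
          have := hM (s / d - 1)
          gcongr
      _ = 2 * M := by
          field_simp

theorem tang_cs (h : FBMS F) (f g : E → ℝ) {y : E} (hy : y ∈ surf F) :
    tang F f g y ^ 2 ≤ tang F f f y * tang F g g y := by
  have hg := grad_sq h hy
  have e : ∀ a b : E → ℝ, tang F a b y = ∑ i, gr F a i y * gr F b i y := by
    intro a b
    unfold tang gr
    simp only [Fin.sum_univ_three] at hg ⊢
    linear_combination (-(pd 0 F y * pd 0 a y + pd 1 F y * pd 1 a y + pd 2 F y * pd 2 a y) *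
      (pd 0 F y * pd 0 b y + pd 1 F y * pd 1 b y + pd 2 F y * pd 2 b y)) * hg
  have h2 := Finset.sum_mul_sq_le_sq_mul_sq Finset.univ (fun i => gr F f i y) (fun i => gr F g i y)
  rw [e f g, e f f, e g g]
  have e1 : ∀ a : E → ℝ, ∑ i, gr F a i y * gr F a i y = ∑ i, gr F a i y ^ 2 := fun a =>
    Finset.sum_congr rfl fun i _ => (sq _).symm
  rw [e1, e1]
  exact h2

/-- smooth functions which are `1_O` near the points of `{ρ ≥ d}` -/
private theorem exists_chi (h : FBMS F) (hφ : ContDiff ℝ ∞ φ) {O : Set E} (hO : Cell F φ O) {S : Set E} (hS : IsClosed S)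
    (hS1 : S ⊆ Metric.ball (0 : E) 1) {d : ℝ} (hd : 0 < d) :
    ∃ χ : E → ℝ, ContDiff ℝ ∞ χ ∧ (∀ y ∈ O, y ∈ S → d ≤ φ y ^ 2 + tang F φ φ y → ∀ᶠ x in 𝓝 y, χ x = 1) ∧
      ∀ y ∈ surf F, y ∈ S → d ≤ φ y ^ 2 + tang F φ φ y → y ∉ O → ∀ᶠ x in 𝓝 y, χ x = 0 := by
  have hK : IsClosed (surf F) := (isCompact_surf h).isClosed
  have cr : Continuous fun y => φ y ^ 2 + tang F φ φ y :=
    (hφ.continuous.pow 2).add (contDiff_tang h.smooth hφ hφ).continuous
  have hc : IsClosed {y | d ≤ φ y ^ 2 + tang F φ φ y} := isClosed_le continuous_const cr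
  have c1 : IsClosed {y | y ∈ O ∧ y ∈ S ∧ d ≤ φ y ^ 2 + tang F φ φ y} := by
    rw [← closure_subset_iff_isClosed]
    intro y hy
    have h1 : y ∈ surf F := hK.closure_subset_iff.2 (fun x hx => hO.sub hx.1) hy
    have h2 : d ≤ φ y ^ 2 + tang F φ φ y := hc.closure_subset_iff.2 (fun x hx => hx.2.2) hy
    have h3 : y ∈ S := hS.closure_subset_iff.2 (fun x hx => hx.2.1) hy
    have h4 : y ∈ closure O := closure_mono (fun x hx => hx.1) hy
    have h5 : y ∈ inn F := by
      have := hS1 h3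
      rw [mem_ball_zero_iff] at this
      exact ⟨this, h1.2⟩
    refine ⟨?_, h3, h2⟩
    by_contra hn
    obtain ⟨h6, h7⟩ := hO.sing y h5 h4 hn
    rw [h6, h7] at h2
    norm_num at h2
    linarith
  have c2 : IsClosed {y | y ∈ surf F ∧ y ∈ S ∧ d ≤ φ y ^ 2 + tang F φ φ y ∧ y ∉ O} := by
    rw [← closure_subset_iff_isClosed]
    intro y hy
    have h1 : y ∈ surf F := hK.closure_subset_iff.2 (fun x hx => hx.1) hy
    have h2 : d ≤ φ y ^ 2 + tang F φ φ y := hc.closure_subset_iff.2 (fun x hx => hx.2.2.1) hy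
    have h3 : y ∈ S := hS.closure_subset_iff.2 (fun x hx => hx.2.1) hy
    refine ⟨h1, h3, h2, fun hn => ?_⟩
    obtain ⟨ε, hε, h4⟩ := hO.opn y hn
    obtain ⟨x, hx, hxy⟩ := Metric.mem_closure_iff.1 hy ε hε
    exact hx.2.2.2 (h4 x hx.1 (by rwa [Metric.mem_ball, dist_comm]))
  have hdis : Disjoint {y | y ∈ surf F ∧ y ∈ S ∧ d ≤ φ y ^ 2 + tang F φ φ y ∧ y ∉ O}
      {y | y ∈ O ∧ y ∈ S ∧ d ≤ φ y ^ 2 + tang F φ φ y} := by
    rw [Set.disjoint_left]
    intro y h1 h2
    exact h1.2.2.2 h2.1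
  obtain ⟨χ, h0, h1, -⟩ := exists_contMDiffMap_zero_one_nhds_of_isClosed 𝓘(ℝ, E) c2 c1 hdis (n := ⊤)
  refine ⟨χ, χ.contMDiff.contDiff, fun y hy hyS hy' => ?_, fun y hy hyS hy' hy'' => ?_⟩
  · exact h1.filter_mono (nhds_le_nhdsSet (show y ∈ {y | y ∈ O ∧ y ∈ S ∧ d ≤ φ y ^ 2 + tang F φ φ y} from ⟨hy, hyS, hy'⟩))
  · exact h0.filter_mono (nhds_le_nhdsSet
      (show y ∈ {y | y ∈ surf F ∧ y ∈ S ∧ d ≤ φ y ^ 2 + tang F φ φ y ∧ y ∉ O} from ⟨hy, hyS, hy', hy''⟩))

private theorem tang_ev {g u v : E → ℝ} {y : E} (h : u =ᶠ[𝓝 y] v) : tang F g u y = tang F g v y := by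
  unfold tang
  simp only [fun i => pd_congr i h]

theorem ibp (h : FBMS F) (hphi : ContDiff ℝ ∞ φ) {O : Set E} (hO : Cell F φ O) {f g : E → ℝ} (hf : ContDiff ℝ ∞ f)
    (hg : ContDiff ℝ ∞ g) (hs : tsupport f ⊆ Metric.ball (0 : E) 1) {K : ℝ}
    (hK : ∀ y ∈ surf F, f y ^ 2 * tang F g g y ≤ K * (φ y ^ 2 + tang F φ φ y) ^ 2) :
    area F (fun y => ind O y * (tang F f g y + f y * lap F g y)) = 0 := by
  obtain ⟨ρ, hρ⟩ : ∃ ρ : E → ℝ, ρ = fun y => φ y ^ 2 + tang F φ φ y := ⟨_, rfl⟩
  have hρs : ContDiff ℝ ∞ ρ := by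
    rw [hρ]
    exact (hphi.pow 2).add (contDiff_tang h.smooth hphi hphi)
  have hρ0 : ∀ y ∈ surf F, 0 ≤ ρ y := by
    intro y hy
    rw [hρ]
    have := tang_nonneg h φ hy
    positivity
  choose χ hχ h1 h0 using fun n : ℕ => exists_chi h hphi hO (isClosed_tsupport f) hs (dl_pos n)
  -- `G n = 1_O κ(ρ)` near the points of the support
  have hG : ∀ n, ∀ y ∈ surf F, y ∈ tsupport f →
      (fun x => χ n x * ka (dl n) (ρ x)) =ᶠ[𝓝 y] fun x => ind O y * ka (dl n) (ρ x) := by
    intro n y hy hyf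
    rcases lt_or_ge (ρ y) (dl n) with h2 | h2
    · have h3 : ∀ᶠ x in 𝓝 y, ρ x < dl n := hρs.continuous.continuousAt.eventually (gt_mem_nhds h2)
      filter_upwards [h3] with x hx
      rw [ka_zero (dl_pos n) hx.le, mul_zero, mul_zero]
    · by_cases hc : y ∈ O
      · filter_upwards [h1 n y hc hyf (by rw [hρ] at h2; exact h2)] with x hx
        rw [hx, ind_mem hc]
      · filter_upwards [h0 n y hy hyf (by rw [hρ] at h2; exact h2) hc] with x hx
        rw [hx, ind_not hc]
  obtain ⟨u, hu⟩ : ∃ u : ℕ → E → ℝ, u = fun n x => f x * (χ n x * ka (dl n) (ρ x)) := ⟨_, rfl⟩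
  have hkρ : ∀ n, ContDiff ℝ ∞ fun x => ka (dl n) (ρ x) := fun n => (ka_smooth _).comp hρs
  have hus : ∀ n, ContDiff ℝ ∞ (u n) := by
    intro n
    rw [hu]
    exact hf.mul ((hχ n).mul (hkρ n))
  have hu1 : ∀ n, ∀ y ∈ surf F, y ∈ tsupport f → u n =ᶠ[𝓝 y] fun x => f x * (ind O y * ka (dl n) (ρ x)) := by
    intro n y hy hyf
    filter_upwards [hG n y hy hyf] with x hx
    rw [hu]
    show f x * (χ n x * ka (dl n) (ρ x)) = _
    rw [hx]
  have hu0 : ∀ n, ∀ y, y ∉ tsupport f → u n =ᶠ[𝓝 y] fun _ => 0 := by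
    intro n y hyf
    rw [notMem_tsupport_iff_eventuallyEq] at hyf
    filter_upwards [hyf] with x hx
    rw [hu]
    show f x * (χ n x * ka (dl n) (ρ x)) = 0
    rw [hx]
    exact zero_mul _
  -- Green's formula
  have hgr : ∀ n, area F (fun y => u n y * lap F g y + tang F g (u n) y) = 0 := by
    intro n
    rw [green h hg (hus n)]
    have e2 : len F (fun y => u n y * nd g y) = len F (fun _ => 0) := by
      refine len_congr (fun y hy => ?_) h
      have hyf : y ∉ tsupport f := by
        intro h2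
        have h3 := hs h2
        rw [mem_ball_zero_iff, hy.1] at h3
        exact lt_irrefl _ h3
      have h4 : u n y = 0 := (hu0 n y hyf).self_of_nhds
      rw [h4, zero_mul]
    rw [e2]
    simp [len]
  -- the values
  have hv1 : ∀ n, ∀ y ∈ surf F, y ∈ tsupport f → u n y * lap F g y + tang F g (u n) y =
      ind O y * (ka (dl n) (ρ y) * (f y * lap F g y + tang F g f y) + deriv (ka (dl n)) (ρ y) * (f y * tang F g ρ y)) := by
    intro n y hy hyf
    have e1 := hu1 n y hy hyf
    have e2 : tang F g (u n) y = ind O y * (ka (dl n) (ρ y) * tang F g f y + f y * (deriv (ka (dl n)) (ρ y) * tang F g ρ y)) := by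
      rw [tang_ev e1]
      have e3 : ∀ i, pd i (fun x => f x * (ind O y * ka (dl n) (ρ x))) y =
          ind O y * (ka (dl n) (ρ y) * pd i f y + f y * (deriv (ka (dl n)) (ρ y) * pd i ρ y)) := by
        intro i
        rw [pd_mul i hf (contDiff_const.mul (hkρ n))]
        have e4 := pd_const_mul i (ind O y) (f := fun x => ka (dl n) (ρ x)) (hkρ n)
        have e5 := pd_comp i (ka (dl n)) (ka_smooth _) hρs
        rw [e4, e5]
        ring
      unfold tang
      simp only [e3, Fin.sum_univ_three]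
      ring
    rw [e2, e1.self_of_nhds]
    ring
  have hv0 : ∀ n, ∀ y, y ∉ tsupport f → u n y * lap F g y + tang F g (u n) y = 0 := by
    intro n y hyf
    have e1 := hu0 n y hyf
    rw [tang_ev e1, e1.self_of_nhds]
    simp [tang, pd_const]
  -- the bound
  obtain ⟨M, hM0, hM⟩ := st_deriv_bound
  obtain ⟨B1, hB10, hB1⟩ := bdd h (k := fun y => f y * lap F g y + tang F g f y)
    ((hf.continuous.mul (contDiff_lap h.smooth hg).continuous).add (contDiff_tang h.smooth hg hf).continuous)
  obtain ⟨B2, hB20, hB2⟩ := bdd h (contDiff_tang h.smooth hρs hρs).continuous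
  have hcs : ∀ y ∈ surf F, |f y * tang F g ρ y| ≤ √(|K| * B2) * ρ y := by
    intro y hy
    have h2 := tang_cs h g ρ hy
    have h3 := hK y hy
    have h4 : (f y * tang F g ρ y) ^ 2 ≤ |K| * B2 * ρ y ^ 2 := by
      have h5 : 0 ≤ tang F ρ ρ y := tang_nonneg h ρ hy
      have h6 : tang F ρ ρ y ≤ B2 := (le_abs_self _).trans (hB2 y hy)
      have h7 : f y ^ 2 * tang F g g y ≤ |K| * ρ y ^ 2 := by
        refine h3.trans ?_
        rw [hρ]
        exact mul_le_mul_of_nonneg_right (le_abs_self K) (by positivity)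
      calc (f y * tang F g ρ y) ^ 2 = f y ^ 2 * tang F g ρ y ^ 2 := by ring
        _ ≤ f y ^ 2 * (tang F g g y * tang F ρ ρ y) := mul_le_mul_of_nonneg_left h2 (sq_nonneg _)
        _ = f y ^ 2 * tang F g g y * tang F ρ ρ y := by ring
        _ ≤ |K| * ρ y ^ 2 * tang F ρ ρ y := mul_le_mul_of_nonneg_right h7 h5
        _ ≤ |K| * ρ y ^ 2 * B2 := mul_le_mul_of_nonneg_left h6 (by positivity)
        _ = |K| * B2 * ρ y ^ 2 := by ring
    have h8 := Real.abs_le_sqrt h4
    rwa [Real.sqrt_mul (by positivity), Real.sqrt_sq (hρ0 y hy)] at h8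
  have hlim : Tendsto (fun n => area F (fun y => u n y * lap F g y + tang F g (u n) y)) atTop
      (𝓝 (area F (fun y => ind O y * (tang F f g y + f y * lap F g y)))) := by
    refine area_tendsto h _ _ (fun n => (((hus n).continuous.mul (contDiff_lap h.smooth hg).continuous).add
      (contDiff_tang h.smooth hg (hus n)).continuous).continuousOn) (B1 + √(|K| * B2) * (2 * M)) (fun n y hy => ?_)
      fun y hy => ?_
    · by_cases hyf : y ∈ tsupport f
      · rw [hv1 n y hy hyf, abs_mul]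
        have h2 : |ind O y| ≤ 1 := by
          rw [abs_of_nonneg (ind_nonneg O y)]
          exact ind_le O y
        have h3 : |ka (dl n) (ρ y) * (f y * lap F g y + tang F g f y)| ≤ B1 := by
          rw [abs_mul]
          calc _ ≤ 1 * B1 := mul_le_mul (ka_abs _ _) (hB1 y hy) (abs_nonneg _) zero_le_one
            _ = B1 := one_mul _
        have h4 : |deriv (ka (dl n)) (ρ y) * (f y * tang F g ρ y)| ≤ √(|K| * B2) * (2 * M) := by
          rw [abs_mul]
          calc _ ≤ |deriv (ka (dl n)) (ρ y)| * (√(|K| * B2) * ρ y) :=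
                mul_le_mul_of_nonneg_left (hcs y hy) (abs_nonneg _)
            _ = √(|K| * B2) * (|deriv (ka (dl n)) (ρ y)| * ρ y) := by ring
            _ ≤ √(|K| * B2) * (2 * M) :=
                mul_le_mul_of_nonneg_left (ka_deriv_mul hM0 hM (dl_pos n) (hρ0 y hy)) (Real.sqrt_nonneg _)
        calc _ ≤ 1 * |ka (dl n) (ρ y) * (f y * lap F g y + tang F g f y) + deriv (ka (dl n)) (ρ y) * (f y * tang F g ρ y)| :=
              mul_le_mul_of_nonneg_right h2 (abs_nonneg _)
          _ ≤ _ := by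
              rw [one_mul]
              exact (abs_add_le _ _).trans (add_le_add h3 h4)
      · rw [hv0 n y hyf, abs_zero]
        positivity
    · by_cases hyf : y ∈ tsupport f
      · by_cases hyO : y ∈ O
        · have h2 : 0 < ρ y := by
            rw [hρ]
            exact hO.pos y hyO
          refine tendsto_const_nhds.congr' ?_
          filter_upwards [dl_lt h2] with n hn
          rw [hv1 n y hy hyf, ka_one (dl_pos n) hn.le, ka_deriv_zero (dl_pos n) hn, tang_comm (f := f)]
          ring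
        · have e : (fun n => u n y * lap F g y + tang F g (u n) y) = fun _ => 0 := by
            funext n
            rw [hv1 n y hy hyf, ind_not hyO, zero_mul]
          rw [e, ind_not hyO, zero_mul]
          exact tendsto_const_nhds
      · have e : (fun n => u n y * lap F g y + tang F g (u n) y) = fun _ => 0 := by
          funext n
          exact hv0 n y hyf
        have e1 : f y = 0 := image_eq_zero_of_notMem_tsupport hyf
        have e2 : tang F f g y = 0 := by
          rw [notMem_tsupport_iff_eventuallyEq] at hyf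
          have hyf' : f =ᶠ[𝓝 y] fun _ => (0 : ℝ) := hyf
          rw [tang_comm, tang_ev hyf']
          simp [tang, pd_const]
        rw [e, e1, e2]
        simp
  have e : (fun n => area F (fun y => u n y * lap F g y + tang F g (u n) y)) = fun _ => 0 := funext hgr
  rw [e] at hlim
  exact tendsto_nhds_unique hlim tendsto_const_nhds

end Pool.Agent.Helper99.RS
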