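import Pool.Agent.Helper94.RS.Six
import Pool.Agent.Helper83.RS.Three
import Pool.Agent.Helper23.RS.South

/-!
# RS: rotations of order at least three, from the unique continuation property
-/

set_option autoImplicit false

open scoped ContDiff Topology

namespace Pool.Agent.Helper99.RS

open Pool.Agent.Helper78.FB

variable {F φ : E → ℝ} {n : ℕ}

theorem rev_of_uc (h : FBMS F) (hconn : IsPreconnected (inn F)) (hA : ∃ y ∈ surf F, normA F y ≠ 0)
    (hi : IndexLeFour F) (huc : UC F (ww F 0 1)) (hn : 3 ≤ n) (hF : ∀ y, F (rot (2 * Real.pi / n) y) = F y) :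
    ∀ y ∈ surf F, ww F 0 1 y = 0 := by
  have hu : ∀ y ∈ inn F, uu F y ≠ 0 := by
    rcases exists_sign h hconn hA hi with h1 | h1
    · exact fun y hy => (h1 y hy).ne'
    · exact fun y hy => (h1 y hy).ne
  have h0 : ∀ y ∈ surf F, y ≠ 0 := fun y hy => ne_zero_of_index h hconn hA hi hy
  exact rev_three h hconn hA hi hn hF (fun _ hz _ he => lc h hz he)
    (no_six h hconn hA hi (null_ww h 0 1) huc) (fun hw => north h hu h0 hw) (fun hw => south h hu h0 hw)

end Pool.Agent.Helper99.RS
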