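import Pool.Agent.Helper94.RS.Rev4
import Pool.Agent.Helper14.RS.Reg
import Pool.Agent.Helper86.RS.LC

/-!
# RS: index at most four and a rotation of order at least four: a surface of revolution
-/

set_option autoImplicit false

open scoped ContDiff Topology

namespace Pool.Agent.Helper99.RS

open Pool.Agent.Helper78.FB

variable {F φ : E → ℝ} {n : ℕ}

theorem regStat (h : FBMS F) (N : Null F φ) : RegStat F φ :=
  fun _ P _ ho hn hs => reg h N P ho hn hs

theorem lcNodal (h : FBMS F) (N : Null F φ) : LcNodal F φ := by
  intro z hz h0 hr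
  obtain ⟨V, hV, hzV, -, hc⟩ := lc_nodal h N.smooth hz h0 hr one_pos
  exact ⟨V, hV, hzV, hc⟩

theorem lCon (h : FBMS F) : LCon F := fun _ hz _ he => lc h hz he

/-- A free boundary minimal surface of Morse index at most four which is invariant under a rotation of order `n ≥ 4` about the third
axis is a surface of revolution. -/
theorem rev_four (h : FBMS F) (hconn : IsPreconnected (inn F)) (hA : ∃ y ∈ surf F, normA F y ≠ 0)
    (hi : IndexLeFour F) (hn : 4 ≤ n) (hF : ∀ y, F (rot (2 * Real.pi / n) y) = F y) : ∀ y ∈ surf F, ww F 0 1 y = 0 :=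
  rev_of4 h hconn hA hi hn hF (lCon h)
    (fun φ N C hP hne hd => no_five h hconn hA hi N (regStat h N) (lcNodal h N) C hP hd hne)
    (fun φ N => no_free h hconn hA hi N (regStat h N) (lcNodal h N))

end Pool.Agent.Helper99.RS
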