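import Pool.Agent.Helper99.RS.LemA
import Pool.Agent.Helper94.RS.North
import Pool.Agent.Helper86.RS.LC

/-!
# RS: combinations of pieces of both signs in the kernel

`bb_sum_zero2`: if the Morse index is at most four and `∑ c_i BB (φs i) (C i) (zz k) = 0` for `k < 4`, where the pieces `C i` of the
functions `φs i` of the kernel are disjoint, then `∑ c_i BB (φs i) (C i) f = 0` for every smooth `f`.
-/

set_option autoImplicit false

open MeasureTheory Filter
open scoped ContDiff Topology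

namespace Pool.Agent.Helper99.RS

open Pool.Agent.Helper78.FB

variable {F φ f : E → ℝ}

private theorem bs {y : E} (hy : y ∈ bdry F) : y ∈ surf F := ⟨hy.1.le, hy.2⟩

/-- Disjoint pieces of two functions are orthogonal. -/
theorem Q_cross2 (h : FBMS F) {φ φ' : E → ℝ} {C C' : Set E} {G G' : ℕ → E → ℝ} (hφ : ContDiff ℝ ∞ φ)
    (A : Appr F φ C G) (A' : Appr F φ' C' G') (hd : Disjoint C C')
    (n : ℕ) : Q F (G n) (G' n) = 0 := by
  rw [Q_green h (A.smooth n) (A'.smooth n)]
  have hi : ∀ y, ind C y * ind C' y = 0 := by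
    intro y
    by_cases hc : y ∈ C
    · rw [ind_not (Set.disjoint_left.1 hd hc), mul_zero]
    · rw [ind_not hc, zero_mul]
  have e1 : area F (fun y => G' n y * (lap F (G n) y + normA F y * G n y)) = area F (fun _ => 0) := by
    refine area_congr (fun y hy => ?_) h
    rw [appr_lap hφ A n hy, appr_val A n hy, appr_val A' n hy]
    linear_combination (psi (dl n) (φ' y) * (p2 (dl n) (φ y) * tang F φ φ y + p1 (dl n) (φ y) * lap F φ y +
      normA F y * psi (dl n) (φ y))) * hi y
  have e2 : len F (fun y => G' n y * (nd (G n) y - G n y)) = len F (fun _ => 0) := by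
    refine len_congr (fun y hy => ?_) h
    rw [appr_nd hφ A n (bs hy), appr_val A n (bs hy), appr_val A' n (bs hy)]
    linear_combination (psi (dl n) (φ' y) * (p1 (dl n) (φ y) * nd φ y - psi (dl n) (φ y))) * hi y
  have z1 : area F (fun _ => 0) = 0 := by simp [area]
  have z2 : len F (fun _ => 0) = 0 := by simp [len]
  rw [e1, e2, z1, z2]
  ring

theorem bb_sum_zero2 (h : FBMS F) (hflat : ∃ y ∈ surf F, normA F y ≠ 0) (hindex : IndexLeFour F)
    {m : ℕ} (φs : Fin m → E → ℝ) (N : ∀ i, Null F (φs i))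
    (C : Fin m → Set E) (hP : ∀ i, Piece F (φs i) (C i)) (hd : ∀ i j, i ≠ j → Disjoint (C i) (C j))
    (c : Fin m → ℝ) (hc : ∀ k : Fin 4, ∑ i, c i * BB F (φs i) (C i) (zz k) = 0) (hf : ContDiff ℝ ∞ f) :
    ∑ i, c i * BB F (φs i) (C i) f = 0 := by
  choose G A using fun i => exists_appr h (N i).smooth (hP i)
  have hG : ∀ i n, ContDiff ℝ ∞ (G i n) := fun i n => (A i).smooth n
  have hS : ∀ n, ContDiff ℝ ∞ (fun y => ∑ i, c i * G i n y) := fun n =>
    ContDiff.sum fun i _ => contDiff_const.mul (hG i n)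
  obtain ⟨K, hK0, hK⟩ := Q_lower h hflat hindex
  -- limits
  have lf : ∀ g : E → ℝ, ContDiff ℝ ∞ g →
      Tendsto (fun n => Q F (fun y => ∑ i, c i * G i n y) g) atTop (𝓝 (∑ i, c i * BB F (φs i) (C i) g)) := by
    intro g hg
    have e : (fun n => Q F (fun y => ∑ i, c i * G i n y) g) = fun n => ∑ i, c i * Q F (G i n) g :=
      funext fun n => TS.Q_sum h Finset.univ c (fun i => G i n) (fun i => hG i n) hg
    rw [e]
    exact tendsto_finset_sum _ fun i _ => (lim_Q h (N i) (hP i) (A i) hg).const_mul (c i)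
  have ls : Tendsto (fun n => Q F (fun y => ∑ i, c i * G i n y) (fun y => ∑ i, c i * G i n y)) atTop (𝓝 0) := by
    have e : (fun n => Q F (fun y => ∑ i, c i * G i n y) (fun y => ∑ i, c i * G i n y)) =
        fun n => ∑ i, c i * (c i * Q F (G i n) (G i n)) := by
      funext n
      rw [TS.Q_sum h Finset.univ c (fun i => G i n) (fun i => hG i n) (hS n)]
      refine Finset.sum_congr rfl fun i _ => ?_
      rw [Q_comm, TS.Q_sum h Finset.univ c (fun i => G i n) (fun i => hG i n) (hG i n),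
        Finset.sum_eq_single i]
      · intro j _ hji
        rw [Q_cross2 h (N j).smooth (A j) (A i) (hd j i hji) n, mul_zero]
      · intro hi
        exact absurd (Finset.mem_univ i) hi
    rw [e]
    have h1 : Tendsto (fun n => ∑ i, c i * (c i * Q F (G i n) (G i n))) atTop (𝓝 (∑ i, c i * (c i * 0))) :=
      tendsto_finset_sum _ fun i _ => ((lim_self h (N i) (hP i) (A i)).const_mul (c i)).const_mul (c i)
    simpa using h1
  obtain ⟨β, hβ⟩ : ∃ β, β = ∑ i, c i * BB F (φs i) (C i) f := ⟨_, rfl⟩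
  obtain ⟨S, hSd⟩ : ∃ S, S = ∑ k, Q F f (zz k) ^ 2 := ⟨_, rfl⟩
  have key : ∀ t : ℝ, -K * (t ^ 2 * S) ≤ 2 * t * β + t ^ 2 * Q F f f := by
    intro t
    have h1 : ∀ n, -K * ∑ k, (Q F (fun y => ∑ i, c i * G i n y) (zz k) + t * Q F f (zz k)) ^ 2 ≤
        Q F (fun y => ∑ i, c i * G i n y) (fun y => ∑ i, c i * G i n y) +
          2 * t * Q F (fun y => ∑ i, c i * G i n y) f + t ^ 2 * Q F f f := by
      intro n
      have h2 := hK (fun y => ∑ i, c i * G i n y + t * f y) ((hS n).add (contDiff_const.mul hf))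
      rw [Q_line h t (hS n) hf] at h2
      have h3 : ∀ k, Q F (fun y => ∑ i, c i * G i n y + t * f y) (zz k) =
          Q F (fun y => ∑ i, c i * G i n y) (zz k) + t * Q F f (zz k) := by
        intro k
        rw [Q_add_left h (hS n) (contDiff_const.mul hf) (contDiff_zz k), Q_const_mul_left h t hf (contDiff_zz k)]
      simp only [h3] at h2
      exact h2
    have l1 : Tendsto (fun n => -K * ∑ k, (Q F (fun y => ∑ i, c i * G i n y) (zz k) + t * Q F f (zz k)) ^ 2) atTop
        (𝓝 (-K * ∑ k : Fin 4, (0 + t * Q F f (zz k)) ^ 2)) := by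
      refine Tendsto.const_mul _ (tendsto_finset_sum _ fun k _ => ?_)
      have h4 := lf (zz k) (contDiff_zz k)
      rw [hc k] at h4
      exact (h4.add_const _).pow 2
    have l2 := (ls.add ((lf f hf).const_mul (2 * t))).add_const (t ^ 2 * Q F f f)
    have h5 := le_of_tendsto_of_tendsto' l1 l2 h1
    rw [← hβ, zero_add] at h5
    have h6 : ∑ k : Fin 4, (0 + t * Q F f (zz k)) ^ 2 = t ^ 2 * S := by
      rw [hSd, Finset.mul_sum]
      exact Finset.sum_congr rfl fun k _ => by ring
    rw [h6] at h5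
    exact h5
  rw [← hβ]
  by_contra hne
  -- choose `t` small with the sign of `-β`
  obtain ⟨M, hM⟩ : ∃ M, M = K * S + Q F f f := ⟨_, rfl⟩
  have k2 : ∀ t : ℝ, 0 ≤ 2 * t * β + t ^ 2 * M := by
    intro t
    have := key t
    rw [hM]
    linarith
  have k3 := k2 (-β / (|M| + 1))
  have hpos : 0 < |M| + 1 := by positivity
  have hb : 0 < β ^ 2 := by positivity
  have e1 : 2 * (-β / (|M| + 1)) * β + (-β / (|M| + 1)) ^ 2 * M =
      β ^ 2 / (|M| + 1) ^ 2 * (M - 2 * (|M| + 1)) := by
    field_simp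
    ring
  rw [e1] at k3
  have h7 : 0 < β ^ 2 / (|M| + 1) ^ 2 := by positivity
  have h8 : M - 2 * (|M| + 1) < 0 := by
    have := le_abs_self M
    have := abs_nonneg M
    linarith
  have := mul_neg_of_pos_of_neg h7 h8
  linarith

/-- The functions `φ` and `-φ` at a regular zero. -/
theorem regular_sides (h : FBMS F) (hφ : ContDiff ℝ ∞ φ) {z : E} (hz : z ∈ inn F) (h0 : φ z = 0)
    (hr : tang F φ φ z ≠ 0) {ε : ℝ} (hε : 0 < ε) : ∃ x ∈ surf F, x ∈ Metric.ball z ε ∧ 0 < φ x := by
  by_contra hcon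
  push Not at hcon
  have hF' : HasStrictFDerivAt F (fderiv ℝ F z) z := h.smooth.contDiffAt.hasStrictFDerivAt (by simp)
  have hφ' : HasStrictFDerivAt φ (fderiv ℝ φ z) z := hφ.contDiffAt.hasStrictFDerivAt (by simp)
  have hext : IsLocalExtrOn φ {x | F x = F z} z := by
    refine Or.inr ?_
    have hb1 : ∀ᶠ y in 𝓝 z, y ∈ Metric.ball z ε := Metric.isOpen_ball.mem_nhds (Metric.mem_ball_self hε)
    have hb2 : ∀ᶠ y : E in 𝓝 z, ‖y‖ < 1 := (continuous_norm.continuousAt).eventually (gt_mem_nhds hz.1)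
    have hb4 : ∀ᶠ y in 𝓝[{x | F x = F z}] z, y ∈ {x | F x = F z} := eventually_mem_nhdsWithin
    filter_upwards [hb1.filter_mono nhdsWithin_le_nhds, hb2.filter_mono nhdsWithin_le_nhds, hb4] with y y1 y2 y4
    have h5 : F y = 0 := by
      have : F y = F z := y4
      rw [this, hz.2]
    rw [h0]
    exact hcon y ⟨y2.le, h5⟩ y1
  obtain ⟨a, b, hab, hl⟩ := hext.exists_multipliers_of_hasStrictFDerivAt_1d hF' hφ'
  have hk : ∀ k : Fin 3, a * pd k F z + b * pd k φ z = 0 := by
    intro k
    have h8 := DFunLike.congr_fun hl (EuclideanSpace.single k (1 : ℝ))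
    simpa [pd] using h8
  have hg := grad_sq h (y := z) ⟨hz.1.le, hz.2⟩
  have hb : b ≠ 0 := by
    rintro rfl
    have ha : ∀ k : Fin 3, a * pd k F z = 0 := fun k => by
      have := hk k
      linarith
    have ha0 : a ≠ 0 := by
      rintro rfl
      exact hab rfl
    have : ∑ i, pd i F z ^ 2 = 0 := Finset.sum_eq_zero fun i _ => by
      rw [(mul_eq_zero.1 (ha i)).resolve_left ha0]
      ring
    rw [this] at hg
    exact zero_ne_one hg
  have hk' : ∀ k : Fin 3, pd k φ z = -(a / b) * pd k F z := by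
    intro k
    have := hk k
    field_simp
    linarith
  apply hr
  unfold tang
  simp only [hk']
  simp only [Fin.sum_univ_three] at hg ⊢
  linear_combination -(a / b) ^ 2 * (pd 0 F z ^ 2 + pd 1 F z ^ 2 + pd 2 F z ^ 2) * hg

end Pool.Agent.Helper99.RS
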