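import Pool.Agent.Helper94.RS.Four

/-!
# RS: the surface is a surface of revolution, for rotations of order at least four
-/

set_option autoImplicit false

open MeasureTheory Filter
open scoped ContDiff Topology

namespace Pool.Agent.Helper99.RS

open Pool.Agent.Helper78.FB

variable {F φ : E → ℝ} {n : ℕ}

theorem no_nodal_end4 (hn : 4 ≤ n) (hlc : LCon F) (hφc : Continuous φ)
    (hF : ∀ y, F (rot (2 * Real.pi / n) y) = F y) (hφ : ∀ y, φ (rot (2 * Real.pi / n) y) = φ y)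
    (haxis : ∀ y : E, y 0 = 0 → y 1 = 0 → φ y = 0)
    (hrad : ∀ x ∈ surf F, ∀ y ∈ surf F, ‖y‖ • x = ‖x‖ • y → x = y) (h0 : ∀ y ∈ surf F, y ≠ 0)
    (h5 : NoFive F φ) (h5' : NoFive F fun y => -φ y) (h4 : NoFree F φ) (h4' : NoFree F fun y => -φ y) {e : E} (he : e ∈ surf F) (he0 : φ e = 0)
    (hmax : ∀ y ∈ surf F, φ y ≠ 0 → y 2 / ‖y‖ ≤ e 2 / ‖e‖)
    (hp : ∀ δ : ℝ, 0 < δ → ∃ y ∈ surf F, y ∈ Metric.ball e δ ∧ 0 < φ y)
    (hm : ∀ δ : ℝ, 0 < δ → ∃ y ∈ surf F, y ∈ Metric.ball e δ ∧ φ y < 0) : False := by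
  have hn0 : n ≠ 0 := by omega
  have hoff : ∀ x : E, φ x ≠ 0 → x 0 ≠ 0 ∨ x 1 ≠ 0 := by
    intro x hx
    by_contra hc
    push Not at hc
    exact hx (haxis x hc.1 hc.2)
  have hpos : ∀ x : E, φ x ≠ 0 → 0 < ‖x‖ + x 2 := fun x hx => pos_of_off (by have := hoff x hx; tauto)
  have hφc' : Continuous fun y => -φ y := hφc.neg
  have hφ' : ∀ y, (fun y => -φ y) (rot (2 * Real.pi / n) y) = (fun y => -φ y) y := fun y => by
    simp only [hφ]
  obtain ⟨y, hy, hyacc⟩ := exists_comp_acc hlc hφc h5 (e := e) fun δ hδ => by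
    obtain ⟨y, h1, h2, h3⟩ := hp δ hδ
    exact ⟨y, ⟨h1, h3⟩, h2⟩
  obtain ⟨y', hy', hyacc'⟩ := exists_comp_acc hlc hφc' h5' (e := e) fun δ hδ => by
    obtain ⟨y, h1, h2, h3⟩ := hm δ hδ
    exact ⟨y, ⟨h1, by simpa using h3⟩, h2⟩
  have hD : ∀ x ∈ comp F φ y, x ∈ surf F ∧ φ x ≠ 0 := fun x hx =>
    ⟨(comp_sub hx).1, (comp_sub hx).2.ne'⟩
  have hD' : ∀ x ∈ comp F (fun y => -φ y) y', x ∈ surf F ∧ φ x ≠ 0 := fun x hx => by
    have h1 := comp_sub hx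
    refine ⟨h1.1, fun h2 => ?_⟩
    have h3 := h1.2
    simp [h2] at h3
  obtain ⟨j, hj, hjn, hs⟩ := exists_stab4 hlc hφc h5 h4 hn hF hφ hy
  obtain ⟨j', hj', hjn', hs'⟩ := exists_stab4 hlc hφc' h5' h4' hn hF hφ' hy'
  have hcont : ∀ D : Set E, (∀ x ∈ D, x ∈ surf F ∧ φ x ≠ 0) → ContinuousOn (zh n) D := fun D hD =>
    (continuousOn_pj fun x hx => hpos x (hD x hx).2).pow n
  refine nested ((isPathConnected_comp hy).image' (hcont _ hD)) ((isPathConnected_comp hy').image' (hcont _ hD'))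
    ?_ ?_ ?_ (wnd_of_stab hj hjn (isPathConnected_comp hy) (fun x hx => hoff x (hD x hx).2) hs)
    (wnd_of_stab hj' hjn' (isPathConnected_comp hy') (fun x hx => hoff x (hD' x hx).2) hs')
    (fun K hK hKc => acc_of_end hn0 hF hφ haxis hrad h0 he he0 hmax hD hD' hyacc' hK hKc)
    (fun K hK hKc => acc_of_end hn0 hF hφ haxis hrad h0 he he0 hmax hD' hD hyacc hK hKc)
  · rw [Set.disjoint_left]
    rintro a ⟨x, hx, rfl⟩ ⟨x', hx', h1⟩
    have h2 := rot_eq_of_zh_eq hn0 hF hφ hrad (hD' x' hx').1 (hD x hx).1 (hpos x' (hD' x' hx').2)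
      (hpos x (hD x hx).2) h1
    have h3 := (comp_sub hx).2
    have h4 := (comp_sub hx').2
    simp only at h4
    linarith
  · rintro ⟨x, hx, h1⟩
    exact pow_ne_zero n (pj_ne_zero (hoff x (hD x hx).2)) h1
  · rintro ⟨x, hx, h1⟩
    exact pow_ne_zero n (pj_ne_zero (hoff x (hD' x hx).2)) h1

theorem rev_of4 (h : FBMS F) (hconn : IsPreconnected (inn F)) (hA : ∃ y ∈ surf F, normA F y ≠ 0)
    (hi : IndexLeFour F) (hn : 4 ≤ n) (hF : ∀ y, F (rot (2 * Real.pi / n) y) = F y) (hlc : LCon F)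
    (h5 : ∀ φ : E → ℝ, Null F φ → NoFive F φ) (h4 : ∀ φ : E → ℝ, Null F φ → NoFree F φ) :
    ∀ y ∈ surf F, ww F 0 1 y = 0 := by
  by_contra hc
  push Not at hc
  have N := null_ww h 0 1
  obtain ⟨e, he, he0, hmax, hp, hm⟩ := north_of_index h hconn hA hi hc
  refine no_nodal_end4 hn hlc (contDiff_ww h.smooth 0 1).continuous hF (fun y => ww_rot hF y) ?_
    (rad_of_index h hconn hA hi) (fun y hy => ne_zero_of_index h hconn hA hi hy) (h5 _ N) (h5 _ (null_neg N))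
    (h4 _ N) (h4 _ (null_neg N)) he he0 hmax hp hm
  intro y h0 h1
  rw [ww, h0, h1]
  ring

theorem no_free (h : FBMS F) (hconn : IsPreconnected (inn F)) (hflat : ∃ y ∈ surf F, normA F y ≠ 0)
    (hindex : IndexLeFour F) (N : Null F φ) (hreg : RegStat F φ) (hlc : LcNodal F φ) : NoFree F φ :=
  fun hF hφ C hP hd hne h01 h12 h23 => no_free_four h hconn hflat hindex N hreg hlc hF hφ C hP hd hne h01 h12 h23

end Pool.Agent.Helper99.RS
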