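import Pool.Agent.Helper94.RS.Mixed
import Pool.Agent.Helper99.RS.UDefs

/-!
# RS: no six disjoint pieces of both signs

`adj`: if `∑ c_i BB (C i) f = 0` for all `f`, then `σ_i c_i` is the same on both sides of a regular nodal curve.
`no_six`: with the unique continuation property there are no six disjoint pieces of `φ` and `-φ` together.
-/

set_option autoImplicit false

open MeasureTheory Filter
open scoped ContDiff Topology

namespace Pool.Agent.Helper99.RS

open Pool.Agent.Helper78.FB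

variable {F φ f : E → ℝ}

private theorem bs {y : E} (hy : y ∈ bdry F) : y ∈ surf F := ⟨hy.1.le, hy.2⟩

theorem sub_of_conn {ψ : E → ℝ} {C V : Set E} (P : Piece F ψ C)
    (hpc : IsPreconnected ({y | y ∈ surf F ∧ 0 < ψ y} ∩ V)) {u : E} (hu : u ∈ C) (huV : u ∈ V) {w : E}
    (hw : w ∈ surf F) (hw0 : 0 < ψ w) (hwV : w ∈ V) : w ∈ C := by
  by_contra hwC
  choose ε1 hε1 h1 using fun (y : {y : E // y ∈ C}) => P.opn y.1 y.2
  choose ε2 hε2 h2 using fun (y : {y : E // y ∈ surf F ∧ 0 < ψ y ∧ y ∉ C}) =>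
    P.cls y.1 y.2.1 y.2.2.1 y.2.2.2
  obtain ⟨v, hv, hv1, hv2⟩ := hpc (⋃ y, Metric.ball y.1 (ε1 y)) (⋃ y, Metric.ball y.1 (ε2 y))
    (isOpen_iUnion fun _ => Metric.isOpen_ball) (isOpen_iUnion fun _ => Metric.isOpen_ball) (fun v hv => by
      by_cases hvC : v ∈ C
      · left
        exact Set.mem_iUnion.2 ⟨⟨v, hvC⟩, Metric.mem_ball_self (hε1 _)⟩
      · right
        exact Set.mem_iUnion.2 ⟨⟨v, hv.1.1, hv.1.2, hvC⟩, Metric.mem_ball_self (hε2 _)⟩)
    ⟨u, ⟨(P.sub u hu), huV⟩, Set.mem_iUnion.2 ⟨⟨u, hu⟩, Metric.mem_ball_self (hε1 _)⟩⟩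
    ⟨w, ⟨⟨hw, hw0⟩, hwV⟩, Set.mem_iUnion.2 ⟨⟨w, hw, hw0, hwC⟩, Metric.mem_ball_self (hε2 _)⟩⟩
  obtain ⟨a, ha⟩ := Set.mem_iUnion.1 hv1
  obtain ⟨b, hb⟩ := Set.mem_iUnion.1 hv2
  exact h2 b v hv.1.1 hb (h1 a v hv.1.1 ha)

theorem cont_ind (h : FBMS F) {ψ : E → ℝ} {C : Set E} (hψ : ContDiff ℝ ∞ ψ) (P : Piece F ψ C) :
    ContinuousOn (fun y => ind C y * ψ y) (surf F) := by
  obtain ⟨G, A⟩ := exists_appr h hψ P
  have hu : TendstoUniformlyOn G (fun y => ind C y * ψ y) atTop (surf F) := by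
    rw [Metric.tendstoUniformlyOn_iff]
    intro ε hε
    filter_upwards [dl_lt hε] with n hn' y hy
    rw [dist_comm, Real.dist_eq, appr_val A n hy]
    exact lt_of_le_of_lt (near_val P n y) hn'
  exact hu.continuousOn (Frequently.of_forall fun n => (A.smooth n).continuous.continuousOn)

private theorem supp_zero {y : E} (hf : y ∉ tsupport f) : lap F f y = 0 ∧ nd f y = 0 ∧ f y = 0 := by
  have h1 : f =ᶠ[𝓝 y] fun _ => (0 : ℝ) := by
    rw [notMem_tsupport_iff_eventuallyEq] at hf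
    exact hf
  refine ⟨?_, ?_, h1.self_of_nhds⟩
  · rw [lap_ev h1]
    simp [lap, pd_const]
  · rw [nd_ev h1]
    simp [nd, pd_const]

theorem bb_pair (h : FBMS F) (N : Null F φ) {s t : ℝ} (hs : s = 1 ∨ s = -1) (ht : t = -s) {C D V : Set E}
    (P : Piece F (fun y => s * φ y) C) (P' : Piece F (fun y => t * φ y) D)
    (hC : ∀ x ∈ surf F, 0 < s * φ x → x ∈ V → x ∈ C) (hD : ∀ x ∈ surf F, 0 < t * φ x → x ∈ V → x ∈ D)
    {om : E → ℝ} (ho : ContDiff ℝ ∞ om) (hV : tsupport om ⊆ V) :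
    BB F (fun y => s * φ y) C om = BB F (fun y => t * φ y) D om := by
  have hφ := N.smooth
  have hss : s * s = 1 := by rcases hs with rfl | rfl <;> norm_num
  have c1 := cont_ind h (contDiff_const.mul hφ) P
  have c2 := cont_ind h (contDiff_const.mul hφ) P'
  have k1 : Continuous fun y => lap F om y + normA F y * om y :=
    (contDiff_lap h.smooth ho).continuous.add ((contDiff_normA h.smooth).continuous.mul ho.continuous)
  have k2 : Continuous fun y => nd om y - om y := (contDiff_nd ho).continuous.sub ho.continuous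
  have bsub : bdry F ⊆ surf F := fun y hy => bs hy
  -- pointwise
  have pt : ∀ y ∈ surf F, y ∈ V → s * (ind C y * (s * φ y)) - s * (ind D y * (t * φ y)) = φ y := by
    intro y hy hyV
    rcases lt_trichotomy (s * φ y) 0 with h1 | h1 | h1
    · have h2 : y ∈ D := hD y hy (by rw [ht]; linarith) hyV
      have h3 : y ∉ C := fun h4 => absurd (P.sub y h4).2 (not_lt.2 h1.le)
      rw [ind_mem h2, ind_not h3, ht]
      linear_combination φ y * hss
    · have h2 : φ y = 0 := by
        have : s * (s * φ y) = 0 := by rw [h1, mul_zero]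
        rwa [← mul_assoc, hss, one_mul] at this
      rw [h2]
      ring
    · have h2 : y ∈ C := hC y hy h1 hyV
      have h3 : y ∉ D := fun h4 => absurd (P'.sub y h4).2 (not_lt.2 (by
        show t * φ y ≤ 0
        rw [ht]
        linarith))
      rw [ind_mem h2, ind_not h3, ht]
      linear_combination φ y * hss
  have a1 : s * area F (fun y => ind C y * (s * φ y) * (lap F om y + normA F y * om y)) +
      (-s) * area F (fun y => ind D y * (t * φ y) * (lap F om y + normA F y * om y)) =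
      area F (fun y => φ y * (lap F om y + normA F y * om y)) := by
    rw [← area_const_mul, ← area_const_mul, ← area_add h]
    · refine area_congr (fun y hy => ?_) h
      by_cases hyV : y ∈ tsupport om
      · have := pt y hy (hV hyV)
        linear_combination (lap F om y + normA F y * om y) * this
      · obtain ⟨e1, -, e3⟩ := supp_zero (F := F) hyV
        rw [e1, e3]
        ring
    · exact continuousOn_const.mul (c1.mul k1.continuousOn)
    · exact continuousOn_const.mul (c2.mul k1.continuousOn)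
  have a2 : s * len F (fun y => ind C y * (s * φ y) * (nd om y - om y)) +
      (-s) * len F (fun y => ind D y * (t * φ y) * (nd om y - om y)) =
      len F (fun y => φ y * (nd om y - om y)) := by
    rw [← len_const_mul, ← len_const_mul, ← len_add h]
    · refine len_congr (fun y hy => ?_) h
      by_cases hyV : y ∈ tsupport om
      · have := pt y (bs hy) (hV hyV)
        linear_combination (nd om y - om y) * this
      · obtain ⟨-, e2, e3⟩ := supp_zero (F := F) hyV
        rw [e2, e3]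
        ring
    · exact continuousOn_const.mul ((c1.mono bsub).mul k2.continuousOn)
    · exact continuousOn_const.mul ((c2.mono bsub).mul k2.continuousOn)
  have a3 : -area F (fun y => φ y * (lap F om y + normA F y * om y)) + len F (fun y => φ y * (nd om y - om y)) = 0 := by
    rw [← Q_green h ho hφ, Q_comm, Q_green h hφ ho]
    have e1 : area F (fun y => om y * (lap F φ y + normA F y * φ y)) = area F (fun _ => 0) := by
      refine area_congr (fun y hy => ?_) h
      rw [N.lap y hy]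
      ring
    have e2 : len F (fun y => om y * (nd φ y - φ y)) = len F (fun _ => 0) := by
      refine len_congr (fun y hy => ?_) h
      rw [N.nd y hy]
      ring
    have z1 : area F (fun _ => 0) = 0 := by simp [area]
    have z2 : len F (fun _ => 0) = 0 := by simp [len]
    rw [e1, e2, z1, z2]
    ring
  rw [← a1, ← a2] at a3
  have a4 : s * (BB F (fun y => s * φ y) C om - BB F (fun y => t * φ y) D om) = 0 := by
    unfold BB
    linear_combination a3
  have hs0 : s ≠ 0 := by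
    rintro rfl
    norm_num at hss
  have := (mul_eq_zero.1 a4).resolve_left hs0
  linarith

theorem null_sign (N : Null F φ) {s : ℝ} (hs : s = 1 ∨ s = -1) : Null F (fun y => s * φ y) := by
  rcases hs with rfl | rfl
  · have : (fun y => 1 * φ y) = φ := by
      funext y
      rw [one_mul]
    rw [this]
    exact N
  · have : (fun y => -1 * φ y) = fun y => -φ y := by
      funext y
      ring
    rw [this]
    exact null_neg N

theorem tang_sign (hφ : ContDiff ℝ ∞ φ) {s : ℝ} (hs : s = 1 ∨ s = -1) (y : E) :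
    tang F (fun y => s * φ y) (fun y => s * φ y) y = tang F φ φ y := by
  have hss : s * s = 1 := by rcases hs with rfl | rfl <;> norm_num
  have h1 : ∀ i, pd i (fun y => s * φ y) y = s * pd i φ y := fun i => by
    rw [pd_const_mul i s hφ]
  unfold tang
  simp only [h1, Fin.sum_univ_three]
  linear_combination ((pd 0 φ y * pd 0 φ y + pd 1 φ y * pd 1 φ y + pd 2 φ y * pd 2 φ y) -
    (pd 0 F y * pd 0 φ y + pd 1 F y * pd 1 φ y + pd 2 F y * pd 2 φ y) ^ 2) * hss

theorem adj (h : FBMS F) (N : Null F φ) {m : ℕ} (σ : Fin m → ℝ) (hσ : ∀ i, σ i = 1 ∨ σ i = -1) (C : Fin m → Set E)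
    (hP : ∀ i, Piece F (fun y => σ i * φ y) (C i)) (hd : ∀ i j, i ≠ j → Disjoint (C i) (C j)) (c : Fin m → ℝ)
    (hsum : ∀ f : E → ℝ, ContDiff ℝ ∞ f → ∑ i, c i * BB F (fun y => σ i * φ y) (C i) f = 0) {i : Fin m} (hi : c i ≠ 0)
    {z : E} (hz : z ∈ inn F) (h0 : φ z = 0) (hr : tang F φ φ z ≠ 0) (hzc : z ∈ closure (C i)) :
    ∃ k, σ k * c k = σ i * c i ∧ ∃ ε : ℝ, 0 < ε ∧ ∀ x ∈ surf F, x ∈ Metric.ball z ε → φ x ≠ 0 → x ∈ C i ∨ x ∈ C k := by
  have hφ := N.smooth
  have hσ' : ∀ i, -σ i = 1 ∨ -σ i = -1 := fun i => by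
    rcases hσ i with h1 | h1 <;> rw [h1] <;> norm_num
  have hzs : z ∈ surf F := ⟨hz.1.le, hz.2⟩
  obtain ⟨V1, hV1, hz1, -, hc1⟩ := lc_nodal h (φ := fun y => σ i * φ y) (contDiff_const.mul hφ) hz
    (by rw [h0, mul_zero]) (by rwa [tang_sign hφ (hσ i)]) one_pos
  obtain ⟨V2, hV2, hz2, -, hc2⟩ := lc_nodal h (φ := fun y => -σ i * φ y) (contDiff_const.mul hφ) hz
    (by rw [h0, mul_zero]) (by rwa [tang_sign hφ (hσ' i)]) one_pos
  have hV : IsOpen (V1 ∩ V2) := hV1.inter hV2
  have hzV : z ∈ V1 ∩ V2 := ⟨hz1, hz2⟩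
  -- `C i` contains the side of `σ i`
  obtain ⟨u, hu, huV⟩ : ∃ u ∈ C i, u ∈ V1 := by
    obtain ⟨r, hr, hb⟩ := Metric.isOpen_iff.1 hV1 z hz1
    obtain ⟨u, hu, huy⟩ := Metric.mem_closure_iff.1 hzc r hr
    exact ⟨u, hu, hb (by rwa [Metric.mem_ball, dist_comm])⟩
  have s1 : ∀ w ∈ surf F, 0 < σ i * φ w → w ∈ V1 → w ∈ C i := fun w hw hw0 hwV =>
    sub_of_conn (hP i) hc1 hu huV hw hw0 hwV
  obtain ⟨om, ho, hn, h1, hs⟩ := exists_bump hV hzV
  have hB : BB F (fun y => σ i * φ y) (C i) om ≠ 0 :=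
    smp h (null_sign N (hσ i)) (hP i) ho hn hzs hzc (by rw [h0, mul_zero]) h1
  -- another piece
  obtain ⟨k, hki, hk⟩ : ∃ k, k ≠ i ∧ c k * BB F (fun y => σ k * φ y) (C k) om ≠ 0 := by
    by_contra hcon
    push Not at hcon
    have h2 := hsum om ho
    rw [Finset.sum_eq_single i (fun k _ hk => hcon k hk) (fun hi' => absurd (Finset.mem_univ i) hi')] at h2
    exact (mul_ne_zero hi hB) h2
  have hBk : BB F (fun y => σ k * φ y) (C k) om ≠ 0 := right_ne_zero_of_mul hk
  obtain ⟨v, hv, hvs⟩ : ∃ v ∈ C k, v ∈ tsupport om := by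
    by_contra hcon
    push Not at hcon
    exact hBk (bb_zero_of_supp (C k) hcon)
  have hvV := hs hvs
  have hsig : ∀ l, σ l = σ i ∨ σ l = -σ i := by
    intro l
    rcases hσ l with h2 | h2 <;> rcases hσ i with h3 | h3 <;> rw [h2, h3] <;> norm_num
  have hk' : σ k = -σ i := by
    refine (hsig k).resolve_left fun h2 => ?_
    have h3 := (hP k).sub v hv
    rw [h2] at h3
    exact Set.disjoint_left.1 (hd k i hki) hv (s1 v h3.1 h3.2 hvV.1)
  have s2 : ∀ w ∈ surf F, 0 < σ k * φ w → w ∈ V2 → w ∈ C k := by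
    intro w hw hw0 hwV
    refine sub_of_conn (V := V2) (hP k) ?_ hv hvV.2 hw hw0 hwV
    rw [hk']
    exact hc2
  have hpair := bb_pair h N (hσ i) hk' (V := V1 ∩ V2) (hP i) (hP k) (fun x hx hx0 hxV => s1 x hx hx0 hxV.1)
    (fun x hx hx0 hxV => s2 x hx hx0 hxV.2) ho hs
  have hoth : ∀ l, l ≠ i → l ≠ k → BB F (fun y => σ l * φ y) (C l) om = 0 := by
    intro l hli hlk
    refine bb_zero_of_supp (C l) fun w hw hws => ?_
    have hwV := hs hws
    have h3 := (hP l).sub w hw
    rcases hsig l with h2 | h2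
    · rw [h2] at h3
      exact Set.disjoint_left.1 (hd l i hli) hw (s1 w h3.1 h3.2 hwV.1)
    · rw [h2, ← hk'] at h3
      exact Set.disjoint_left.1 (hd l k hlk) hw (s2 w h3.1 h3.2 hwV.2)
  have h2 := hsum om ho
  have h3 : ∑ l, c l * BB F (fun y => σ l * φ y) (C l) om =
      c i * BB F (fun y => σ i * φ y) (C i) om + c k * BB F (fun y => σ k * φ y) (C k) om := by
    rw [← Finset.sum_pair (f := fun l => c l * BB F (fun y => σ l * φ y) (C l) om) hki.symm]
    refine (Finset.sum_subset (Finset.subset_univ _) fun l _ hl => ?_).symm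
    rw [Finset.mem_insert, Finset.mem_singleton, not_or] at hl
    rw [hoth l hl.1 hl.2, mul_zero]
  rw [h3, ← hpair, ← add_mul] at h2
  have h4 : c i + c k = 0 := (mul_eq_zero.1 h2).resolve_right hB
  refine ⟨k, ?_, ?_⟩
  · rw [hk']
    linear_combination (-σ i) * h4
  · obtain ⟨ε, hε, hb⟩ := Metric.isOpen_iff.1 hV z hzV
    refine ⟨ε, hε, fun x hx hxb hx0 => ?_⟩
    have hxV := hb hxb
    have h5 : σ i * φ x ≠ 0 := by
      refine mul_ne_zero ?_ hx0
      rcases hσ i with h6 | h6 <;> rw [h6] <;> norm_num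
    rcases lt_or_gt_of_ne h5 with h6 | h6
    · right
      refine s2 x hx ?_ hxV.2
      rw [hk']
      linarith
    · left
      exact s1 x hx h6 hxV.1

theorem no_six (h : FBMS F) (_hconn : IsPreconnected (inn F)) (hflat : ∃ y ∈ surf F, normA F y ≠ 0)
    (hindex : IndexLeFour F) (N : Null F φ) (huc : UC F φ) : NoSix F φ := by
  intro σ C hσ hP hne hd
  have hφ := N.smooth
  -- coefficients
  obtain ⟨c, hc, hc0, hck⟩ : ∃ c : Fin 6 → ℝ, c ≠ 0 ∧ c 0 = 0 ∧
      ∀ k : Fin 4, ∑ i, c i * BB F (fun y => σ i * φ y) (C i) (zz k) = 0 := by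
    let M : Matrix (Option (Fin 4)) (Fin 6) ℝ := Matrix.of fun k i =>
      match k with
      | none => if i = 0 then 1 else 0
      | some k => BB F (fun y => σ i * φ y) (C i) (zz k)
    have h2 : LinearMap.ker (Matrix.toLin' M) ≠ ⊥ :=
      LinearMap.ker_ne_bot_of_finrank_lt (by simp)
    obtain ⟨c, hc, hc0⟩ := (Submodule.ne_bot_iff _).1 h2
    rw [LinearMap.mem_ker, Matrix.toLin'_apply] at hc
    refine ⟨c, hc0, ?_, fun k => ?_⟩
    · have h3 := congrFun hc none
      simp only [Matrix.mulVec, dotProduct, M, Matrix.of_apply, Pi.zero_apply, ite_mul, one_mul, zero_mul,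
        Finset.sum_ite_eq', Finset.mem_univ, if_true] at h3
      exact h3
    · have h3 := congrFun hc (some k)
      simp only [Matrix.mulVec, dotProduct, M, Matrix.of_apply, Pi.zero_apply] at h3
      rw [← h3]
      exact Finset.sum_congr rfl fun i _ => mul_comm _ _
  have hsum : ∀ f : E → ℝ, ContDiff ℝ ∞ f → ∑ i, c i * BB F (fun y => σ i * φ y) (C i) f = 0 := fun f hf =>
    bb_sum_zero2 h hflat hindex (fun i y => σ i * φ y) (fun i => null_sign N (hσ i)) C hP hd c hck hf
  obtain ⟨j, hj⟩ : ∃ j, c j ≠ 0 := by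
    by_contra hcon
    push Not at hcon
    exact hc (funext hcon)
  have hσ0 : ∀ i, σ i ≠ 0 := fun i => by rcases hσ i with h1 | h1 <;> rw [h1] <;> norm_num
  obtain ⟨α, hα⟩ : ∃ α, α = σ j * c j := ⟨_, rfl⟩
  have hα0 : α ≠ 0 := by
    rw [hα]
    exact mul_ne_zero (hσ0 j) hj
  obtain ⟨U, hU⟩ : ∃ U : Set E, U = {y | ∃ i, σ i * c i = α ∧ y ∈ C i} := ⟨_, rfl⟩
  obtain ⟨O, hO⟩ : ∃ O : Set E, O = {y | y ∈ U ∨ (y ∈ inn F ∧ φ y = 0 ∧ tang F φ φ y ≠ 0 ∧ y ∈ closure U)} := ⟨_, rfl⟩
  have hUm : ∀ y, y ∈ U ↔ ∃ i, σ i * c i = α ∧ y ∈ C i := fun y => by rw [hU]; rfl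
  have hOm : ∀ y, y ∈ O ↔ (y ∈ U ∨ (y ∈ inn F ∧ φ y = 0 ∧ tang F φ φ y ≠ 0 ∧ y ∈ closure U)) := fun y => by
    rw [hO]; rfl
  have hcl : ∀ z ∈ closure U, ∃ i, σ i * c i = α ∧ z ∈ closure (C i) := by
    intro z hz
    have e : U = ⋃ i : {i : Fin 6 // σ i * c i = α}, C i.1 := by
      ext y
      rw [hUm, Set.mem_iUnion]
      constructor
      · rintro ⟨i, hi, hy⟩
        exact ⟨⟨i, hi⟩, hy⟩
      · rintro ⟨i, hy⟩
        exact ⟨i.1, i.2, hy⟩
    rw [e, closure_iUnion_of_finite, Set.mem_iUnion] at hz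
    obtain ⟨i, hi⟩ := hz
    exact ⟨i.1, i.2, hi⟩
  have hOU : O ⊆ closure U := by
    intro y hy
    rcases (hOm y).1 hy with h1 | h1
    · exact subset_closure h1
    · exact h1.2.2.2
  have hclO : closure O ⊆ closure U := closure_minimal hOU isClosed_closure
  have ct : Continuous (tang F φ φ) := (contDiff_tang h.smooth hφ hφ).continuous
  have hci : ∀ i, σ i * c i = α → c i ≠ 0 := by
    intro i hi h1
    rw [h1, mul_zero] at hi
    exact hα0 hi.symm
  have hcell : Cell F φ O := by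
    refine ⟨fun y hy => ?_, fun y hy => ?_, fun y hy => ?_, fun z hz hzc hzO => ?_⟩
    · rcases (hOm y).1 hy with h1 | h1
      · obtain ⟨i, -, hi⟩ := (hUm y).1 h1
        exact ((hP i).sub y hi).1
      · exact ⟨h1.1.1.le, h1.1.2⟩
    · rcases (hOm y).1 hy with h1 | h1
      · obtain ⟨i, -, hi⟩ := (hUm y).1 h1
        have h2 := (hP i).sub y hi
        have h3 : φ y ≠ 0 := right_ne_zero_of_mul h2.2.ne'
        have h4 := tang_nonneg h φ h2.1
        positivity
      · have h4 := tang_nonneg h φ (y := y) ⟨h1.1.1.le, h1.1.2⟩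
        have h5 := lt_of_le_of_ne h4 (Ne.symm h1.2.2.1)
        positivity
    · rcases (hOm y).1 hy with h1 | h1
      · obtain ⟨i, hi, hyi⟩ := (hUm y).1 h1
        obtain ⟨ε, hε, h2⟩ := (hP i).opn y hyi
        exact ⟨ε, hε, fun x hx hxb => (hOm x).2 (Or.inl ((hUm x).2 ⟨i, hi, h2 x hx hxb⟩))⟩
      · obtain ⟨hyi, hy0, hyt, hyc⟩ := h1
        obtain ⟨i, hi, hic⟩ := hcl y hyc
        obtain ⟨k, hk, ε, hε, hb⟩ := adj h N σ hσ C hP hd c hsum (hci i hi) hyi hy0 hyt hic
        have hb' : ∀ x ∈ surf F, x ∈ Metric.ball y ε → φ x ≠ 0 → x ∈ U := by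
          intro x hx hxb hx0
          rcases hb x hx hxb hx0 with h2 | h2
          · exact (hUm x).2 ⟨i, hi, h2⟩
          · exact (hUm x).2 ⟨k, hk.trans hi, h2⟩
        obtain ⟨ε1, hε1, h2⟩ := Metric.eventually_nhds_iff_ball.1
          (((continuous_norm.continuousAt (x := y)).eventually (gt_mem_nhds hyi.1)).and (ct.continuousAt.eventually_ne hyt))
        refine ⟨min ε ε1, lt_min hε hε1, fun x hx hxb => (hOm x).2 ?_⟩
        have hxe := Metric.ball_subset_ball (min_le_left _ _) hxb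
        obtain ⟨h3, h4⟩ := h2 x (Metric.ball_subset_ball (min_le_right _ _) hxb)
        by_cases hx0 : φ x = 0
        · right
          refine ⟨⟨h3, hx.2⟩, hx0, h4, ?_⟩
          rw [Metric.mem_closure_iff]
          intro δ hδ
          have h5 : 0 < min δ (ε - dist x y) := lt_min hδ (by
            have : dist x y < ε := hxe
            linarith)
          obtain ⟨w, hw, hwb, hw0⟩ := regular_sides h hφ ⟨h3, hx.2⟩ hx0 h4 h5
          have h6 : dist w x < min δ (ε - dist x y) := hwb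
          refine ⟨w, hb' w hw ?_ hw0.ne', ?_⟩
          · have h7 : dist w x < ε - dist x y := lt_of_lt_of_le h6 (min_le_right _ _)
            have h8 := dist_triangle w x y
            show dist w y < ε
            linarith
          · rw [dist_comm]
            exact lt_of_lt_of_le h6 (min_le_left _ _)
        · left
          exact hb' x hx hxe hx0
    · obtain ⟨i, hi, hic⟩ := hcl z (hclO hzc)
      have hzs : z ∈ surf F := ⟨hz.1.le, hz.2⟩
      have hzC : z ∉ C i := fun h1 => hzO ((hOm z).2 (Or.inl ((hUm z).2 ⟨i, hi, h1⟩)))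
      have h1 : 0 ≤ σ i * φ z := by
        have hcl' : IsClosed {y | 0 ≤ σ i * φ y} := isClosed_le continuous_const (continuous_const.mul hφ.continuous)
        exact hcl'.closure_subset_iff.2 (fun x hx => ((hP i).sub x hx).2.le) hic
      have h2 : φ z = 0 := by
        by_contra h3
        have h4 : 0 < σ i * φ z := lt_of_le_of_ne h1 (Ne.symm (mul_ne_zero (hσ0 i) h3))
        obtain ⟨ε, hε, h5⟩ := (hP i).cls z hzs h4 hzC
        obtain ⟨x, hx, hxz⟩ := Metric.mem_closure_iff.1 hic ε hε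
        exact h5 x ((hP i).sub x hx).1 (by rwa [Metric.mem_ball, dist_comm]) hx
      refine ⟨h2, ?_⟩
      by_contra h3
      exact hzO ((hOm z).2 (Or.inr ⟨hz, h2, h3, hclO hzc⟩))
  -- a point of `C 0` is not in the closure
  obtain ⟨a, haC, hai⟩ := piece_meets_inn h (hP 0) (hne 0)
  have ha : a ∉ closure O := by
    intro h1
    obtain ⟨ε, hε, h2⟩ := (hP 0).opn a haC
    obtain ⟨u, hu, hua⟩ := Metric.mem_closure_iff.1 (hclO h1) ε hε
    obtain ⟨i, hi, hui⟩ := (hUm u).1 hu
    have h3 : i ≠ 0 := by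
      rintro rfl
      exact hci 0 hi hc0
    exact Set.disjoint_left.1 (hd i 0 h3) hui (h2 u ((hP i).sub u hui).1 (by rwa [Metric.mem_ball, dist_comm]))
  obtain ⟨b, hbC, hbi⟩ := piece_meets_inn h (hP j) (hne j)
  exact huc O hcell ⟨a, hai, ha⟩ b ((hOm b).2 (Or.inl ((hUm b).2 ⟨j, hα.symm, hbC⟩))) hbi

end Pool.Agent.Helper99.RS
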